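import Mathlib
import Pool.Agent.Helper831.SemiRiem
import Pool.Agent.Helper831.SemiOrbit
import Pool.Agent.Helper831.NilMetric

set_option maxSynthPendingDepth 3

open scoped Manifold ContDiff Topology
open Set Filter MeasureTheory
open Pool.Agent.Helper831

namespace Pool.Agent.Results.MP_53eea8_gt.UnboundedOrbits

/-- bounded orbits are tangent to the kernel of `dz` -/
theorem bounded_kernel (q : TangentBundle 𝓘(ℝ, ℝ × ℝ × ℝ) NilMfd)
    (hq : nilMetric.OrbitBounded q) : nilZ.form q.1 q.2 = 0 := by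
  obtain ⟨γ, hγ, hγ0⟩ := nilMetric_complete q.1 q.2
  obtain ⟨K, hK, hmem⟩ := hq γ hγ hγ0
  have hz : nilZ.form (γ 0) (velocity (ℝ × ℝ × ℝ) γ 0) = nilZ.form q.1 q.2 :=
    congrArg (fun p : TangentBundle 𝓘(ℝ, ℝ × ℝ × ℝ) NilMfd => nilZ.form p.1 p.2) hγ0
  obtain ⟨C, hC⟩ := hK.exists_bound_of_continuousOn (continuous_oneForm nilY).continuousOn
  by_contra hne
  set a := nilZ.form (γ 0) (velocity (ℝ × ℝ × ℝ) γ 0) with ha
  have hane : a ≠ 0 := by rw [hz]; exact hne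
  set b := nilY.form (γ 0) (velocity (ℝ × ℝ × ℝ) γ 0) with hb
  have h1 : ∀ t : ℝ, |-a ^ 2 * t + b| ≤ C := by
    intro t
    have h2 := hC _ (hmem t)
    rw [Real.norm_eq_abs] at h2
    have h3 := nilY_affine hγ t
    rw [← ha, ← hb] at h3
    rw [← h3]
    exact h2
  have h4 := h1 ((b + |C| + 1) / a ^ 2)
  have h5 : -a ^ 2 * ((b + |C| + 1) / a ^ 2) + b = -(|C| + 1) := by
    field_simp
    ring
  rw [h5, abs_neg, abs_of_nonneg (by positivity)] at h4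
  linarith [le_abs_self C]

/-- the form `dz` in the charts of the tangent bundle -/
theorem nilZ_extChart (q₀ q : TangentBundle 𝓘(ℝ, ℝ × ℝ × ℝ) NilMfd)
    (hq : q.1 ∈ (chartAt (ℝ × ℝ × ℝ) q₀.1).source) :
    nilZ.form q.1 q.2 = (extChartAt 𝓘(ℝ, ℝ × ℝ × ℝ).tangent q₀ q).2.2.2 := by
  have he := chart_mem_atlas (ℝ × ℝ × ℝ) q₀.1
  rw [form_eq_Hm nilZ he q hq, Hm_apply, ← triv_eq q₀.1 q hq]
  exact nilZ_coeff he _ _

theorem source_iff (q₀ q : TangentBundle 𝓘(ℝ, ℝ × ℝ × ℝ) NilMfd)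
    (hq : q ∈ (extChartAt 𝓘(ℝ, ℝ × ℝ × ℝ).tangent q₀).source) :
    q.1 ∈ (chartAt (ℝ × ℝ × ℝ) q₀.1).source := by
  rw [extChartAt_source] at hq
  exact (TangentBundle.mem_chart_source_iff q q₀).1 hq

theorem isNull_bounded : IsNullSet {q : TangentBundle 𝓘(ℝ, ℝ × ℝ × ℝ) NilMfd |
    nilMetric.OrbitBounded q} := by
  intro q₀
  refine measure_mono_null (t := (univ : Set (ℝ × ℝ × ℝ)) ×ˢ {u : ℝ × ℝ × ℝ | u.2.2 = 0}) ?_ ?_
  · rintro _ ⟨q, ⟨hq1, hq2⟩, rfl⟩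
    refine ⟨mem_univ _, ?_⟩
    rw [mem_setOf_eq, ← nilZ_extChart q₀ q (source_iff q₀ q hq2)]
    exact bounded_kernel q hq1
  · have h1 : {u : ℝ × ℝ × ℝ | u.2.2 = 0} = univ ×ˢ (univ ×ˢ {(0 : ℝ)}) := by
      ext u
      simp
    rw [h1, Measure.volume_eq_prod, Measure.prod_prod, Measure.volume_eq_prod,
      Measure.prod_prod, Measure.volume_eq_prod, Measure.prod_prod]
    simp

theorem isOpenPos : (volume : Measure ((ℝ × ℝ × ℝ) × (ℝ × ℝ × ℝ))).IsOpenPosMeasure := by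
  have h2 : (volume : Measure (ℝ × ℝ × ℝ)).IsOpenPosMeasure := by
    rw [Measure.volume_eq_prod]; infer_instance
  rw [Measure.volume_eq_prod]; infer_instance

theorem not_isNull_univ : ¬ IsNullSet (univ : Set (TangentBundle 𝓘(ℝ, ℝ × ℝ × ℝ) NilMfd)) := by
  intro h
  obtain ⟨x⟩ : Nonempty NilMfd := inferInstance
  have h1 := h (⟨x, 0⟩ : TangentBundle 𝓘(ℝ, ℝ × ℝ × ℝ) NilMfd)
  rw [univ_inter, PartialEquiv.image_source_eq_target] at h1
  have h2 := isOpen_extChartAt_target (I := 𝓘(ℝ, ℝ × ℝ × ℝ).tangent)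
    (⟨x, 0⟩ : TangentBundle 𝓘(ℝ, ℝ × ℝ × ℝ) NilMfd)
  have h3 := mem_extChartAt_target (I := 𝓘(ℝ, ℝ × ℝ × ℝ).tangent)
    (⟨x, 0⟩ : TangentBundle 𝓘(ℝ, ℝ × ℝ × ℝ) NilMfd)
  have h4 := isOpenPos
  exact (h2.measure_pos (volume : Measure ((ℝ × ℝ × ℝ) × (ℝ × ℝ × ℝ))) ⟨_, h3⟩).ne' h1

theorem not_isNull_unbounded : ¬ IsNullSet {q : TangentBundle 𝓘(ℝ, ℝ × ℝ × ℝ) NilMfd |
    ¬ nilMetric.OrbitBounded q} := by
  intro h
  apply not_isNull_univ
  intro q₀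
  have h1 := isNull_bounded q₀
  have h2 := h q₀
  have h3 : (univ : Set (TangentBundle 𝓘(ℝ, ℝ × ℝ × ℝ) NilMfd))
      = {q | nilMetric.OrbitBounded q} ∪ {q | ¬ nilMetric.OrbitBounded q} := by
    ext q
    simp [em]
  rw [h3, union_inter_distrib_right, image_union]
  exact measure_union_null h1 h2

/-- There are a closed connected smooth 3-manifold and a geodesically complete metric of
indefinite signature on it for which almost every orbit of the geodesic flow is unbounded. -/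
theorem result : ∃ (M : Type) (_ : TopologicalSpace M) (_ : ChartedSpace (ℝ × ℝ × ℝ) M)
    (_ : IsManifold 𝓘(ℝ, ℝ × ℝ × ℝ) ∞ M) (_ : CompactSpace M) (_ : T2Space M)
    (_ : ConnectedSpace M) (g : SemiRiemannianMetric (ℝ × ℝ × ℝ) M),
    g.IsIndefinite ∧ g.IsComplete ∧
      ¬ IsNullSet {q : TangentBundle 𝓘(ℝ, ℝ × ℝ × ℝ) M | ¬ g.OrbitBounded q} ∧
      IsNullSet {q : TangentBundle 𝓘(ℝ, ℝ × ℝ × ℝ) M | g.OrbitBounded q} :=
  ⟨NilMfd, inferInstance, inferInstance, inferInstance, inferInstance, inferInstance,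
    inferInstance, nilMetric, nilMetric_indefinite, nilMetric_complete, not_isNull_unbounded,
    isNull_bounded⟩

end Pool.Agent.Results.MP_53eea8_gt.UnboundedOrbits
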